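import Pool.Agent.W952.LP.Stm

set_option autoImplicit false

namespace Pool.Agent.W356.LP

open Pool.Agent.W952.LP

theorem nd_cast (a b : ℕ) : ((nd a b : ℕ) : ℝ) = |(a : ℝ) - b| := by
  unfold nd
  rcases le_total a b with h | h
  · rw [Nat.sub_eq_zero_of_le h, zero_add, Nat.cast_sub h, abs_sub_comm, abs_of_nonneg]
    rw [sub_nonneg]; exact_mod_cast h
  · rw [Nat.sub_eq_zero_of_le h, add_zero, Nat.cast_sub h, abs_of_nonneg]
    rw [sub_nonneg]; exact_mod_cast h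

theorem coord (a a' K K' : ℕ) :
    |(a : ℝ) / 2 ^ K - (a' : ℝ) / 2 ^ K'| = ((nd (a * 2 ^ K') (a' * 2 ^ K) : ℕ) : ℝ) / 2 ^ (K + K') := by
  rw [nd_cast]
  have h2 : (0 : ℝ) < 2 ^ (K + K') := by positivity
  rw [eq_div_iff h2.ne', ← abs_of_pos h2, ← abs_mul]
  congr 1
  rw [pow_add]
  push_cast
  field_simp

theorem t_dist : S_dist := by
  intro c c'
  unfold dnum ratVal
  rw [Nat.unpair_pair]
  simp only
  have h1 : (((2 ^ (c.2.2.2 + c'.2.2.2) - 1 : ℕ) : ℝ) + 1) = 2 ^ (c.2.2.2 + c'.2.2.2) := by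
    rw [Nat.cast_sub Nat.one_le_two_pow]
    push_cast
    ring
  rw [h1, Nat.cast_max, Nat.cast_max]
  unfold pnt
  rw [Prod.dist_eq, Prod.dist_eq]
  simp only [Real.dist_eq]
  rw [coord, coord, coord]
  have h2 : (0 : ℝ) ≤ 2 ^ (c.2.2.2 + c'.2.2.2) := by positivity
  rw [max_div_div_right h2, max_div_div_right h2]

theorem gad (G : Gd) (g i b m l : ℕ) (hi : i < G.nn g) (hm : m * 2 ^ b + 2 ^ l ≤ 2 ^ (l + b))
    (hb : ∀ b' < b, ∃ c, G.T g b' c = true) :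
    pnt (2 ^ (G.nn g + 2 * l), m * 2 ^ l, i * (m * (2 ^ l - m)), g + G.nn g + 2 * l) ∈ G.Sp := by
  have hmR : (m : ℝ) * 2 ^ b + 2 ^ l ≤ 2 ^ (l + b) := by exact_mod_cast hm
  have hml : m ≤ 2 ^ l := by
    by_contra hcon
    push Not at hcon
    have h4 : 2 ^ l * 2 ^ b < m * 2 ^ b := Nat.mul_lt_mul_of_pos_right hcon (by positivity)
    have h5 : 0 < 2 ^ l := by positivity
    rw [pow_add] at hm
    omega
  have hb0 : (0 : ℝ) < 2 ^ b := by positivity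
  have hl0 : (0 : ℝ) < 2 ^ l := by positivity
  have hy0 : (0 : ℝ) ≤ (m : ℝ) / 2 ^ l := by positivity
  have hy1 : (m : ℝ) / 2 ^ l ≤ 1 := by
    rw [div_le_one hl0]
    exact_mod_cast hml
  have hyb : (m : ℝ) / 2 ^ l ≤ 1 - (1 / 2 : ℝ) ^ b := by
    rw [div_le_iff₀ hl0, one_div, inv_pow]
    rw [pow_add] at hmR
    have e : (1 - ((2 : ℝ) ^ b)⁻¹) * 2 ^ l = (2 ^ l * 2 ^ b - 2 ^ l) / 2 ^ b := by
      field_simp
    rw [e, le_div_iff₀ hb0]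
    linarith
  have e1 : ((2 ^ (G.nn g + 2 * l) : ℕ) : ℝ) / 2 ^ (g + G.nn g + 2 * l) = (1 / 2 : ℝ) ^ g := by
    push_cast
    rw [one_div, inv_pow, div_eq_iff (by positivity)]
    rw [pow_add, pow_add, pow_add]
    field_simp
  have e2 : ((m * 2 ^ l : ℕ) : ℝ) / 2 ^ (g + G.nn g + 2 * l) =
      (1 / 2 : ℝ) ^ (g + G.nn g) * ((m : ℝ) / 2 ^ l) := by
    push_cast
    rw [one_div, inv_pow, div_eq_iff (by positivity)]
    rw [pow_add _ _ (2 * l), two_mul, pow_add _ l l]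
    field_simp
  have e3 : ((i * (m * (2 ^ l - m)) : ℕ) : ℝ) / 2 ^ (g + G.nn g + 2 * l) =
      (1 / 2 : ℝ) ^ (g + G.nn g) * ((i : ℝ) * ((m : ℝ) / 2 ^ l * (1 - (m : ℝ) / 2 ^ l))) := by
    rw [Nat.cast_mul, Nat.cast_mul, Nat.cast_sub hml]
    push_cast
    rw [one_div, inv_pow, div_eq_iff (by positivity)]
    rw [pow_add _ _ (2 * l), two_mul, pow_add _ l l]
    field_simp
  have hreach : G.Reach g ((m : ℝ) / 2 ^ l) := ⟨hy0, hy1, Or.inr ⟨b, hb, hyb⟩⟩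
  have heq : pnt (2 ^ (G.nn g + 2 * l), m * 2 ^ l, i * (m * (2 ^ l - m)), g + G.nn g + 2 * l) =
      G.pt g i ((m : ℝ) / 2 ^ l) := by
    unfold pnt Gd.pt Gd.eps
    exact Prod.ext e1 (Prod.ext e2 e3)
  rw [heq]
  exact Or.inr ⟨g, i, _, hi, hreach, rfl⟩

theorem spine (G : Gd) (a l : ℕ) (h : a ≤ 2 ^ l) : pnt (a, 0, 0, l) ∈ G.Sp := by
  have hl0 : (0 : ℝ) < 2 ^ l := by positivity
  have h1 : (a : ℝ) / 2 ^ l ≤ 1 := by
    rw [div_le_one hl0]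
    exact_mod_cast h
  exact Or.inl ⟨(a : ℝ) / 2 ^ l, by positivity, h1, by simp [pnt]⟩

theorem t_mem : S_mem := by
  intro G k
  unfold Pool.Agent.W952.LP.sq cd
  split_ifs with h1 h2 h3
  · exact spine G _ _ h2
  · exact spine G 0 0 (Nat.zero_le _)
  · have h4 : Flag G (k / 2) := by simpa [flag] using h3
    exact gad G _ _ _ _ _ h4.1 h4.2.1 (fun b' hb' => by
      obtain ⟨c, _, hc⟩ := h4.2.2 b' hb'
      exact ⟨c, hc⟩)
  · exact spine G 0 0 (Nat.zero_le _)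

end Pool.Agent.W356.LP
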